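import Mathlib

set_option autoImplicit false

namespace Pool.Agent.Results.MP_8ae77a_co.Excess

open Finset Filter Classical SimpleGraph

/-- semilabeled binary tree of size `n` -/
structure BTree (n : ℕ) where
  V : Type
  fin : Finite V
  G : SimpleGraph V
  tree : G.IsTree
  deg : ∀ v, (G.neighborSet v).ncard = 1 ∨ (G.neighborSet v).ncard = 3
  lab : Fin n → V
  inj : Function.Injective lab
  leaf : ∀ v, v ∈ Set.range lab ↔ (G.neighborSet v).ncard = 1

/-- partitions of the labels induced by deleting a set of edges -/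
def BTree.parts {n : ℕ} (T : BTree n) : Set (Setoid (Fin n)) :=
  {r | ∃ D : Set (Sym2 T.V), ∀ i j, r i j ↔ (T.G.deleteEdges D).Reachable (T.lab i) (T.lab j)}

/-- the quantity `s^{(t)}_{n,k}` -/
noncomputable def s (t n k : ℕ) : ℕ := sInf {m | ∃ T : Fin t → BTree n,
  m = {r : Setoid (Fin n) | Nat.card (Quotient r) = k ∧ ∀ i, r ∈ (T i).parts}.ncard}

variable {n : ℕ}

def Sep (T : BTree n) (A B : Finset (Fin n)) : Prop := ∃ D : Set (Sym2 T.V),
  (∀ a ∈ A, ∀ b ∈ A, (T.G.deleteEdges D).Reachable (T.lab a) (T.lab b)) ∧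
  (∀ a ∈ B, ∀ b ∈ B, (T.G.deleteEdges D).Reachable (T.lab a) (T.lab b)) ∧
  ∀ a ∈ A, ∀ b ∈ B, ¬ (T.G.deleteEdges D).Reachable (T.lab a) (T.lab b)

lemma Sep.mono {T : BTree n} {A B A' B' : Finset (Fin n)} (h : Sep T A B) (hA : A' ⊆ A)
    (hB : B' ⊆ B) : Sep T A' B' :=
  h.imp fun _ h => ⟨fun a ha b hb => h.1 a (hA ha) b (hA hb), fun a ha b hb =>
    h.2.1 a (hB ha) b (hB hb), fun a ha b hb => h.2.2 a (hA ha) b (hB hb)⟩

lemma reach_ind {V : Type} {G : SimpleGraph V} {u : V} {P : V → Prop} (h0 : P u)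
    (h1 : ∀ a b, P a → G.Adj a b → P b) {v : V} (h : G.Reachable u v) : P v := by
  rw [reachable_iff_reflTransGen] at h
  induction h with
  | refl => exact h0
  | tail _ h ih => exact h1 _ _ ih h

lemma uniq (T : BTree n) (i : Fin n) {a b : T.V} (ha : T.G.Adj (T.lab i) a)
    (hb : T.G.Adj (T.lab i) b) : a = b := by
  obtain ⟨c, hc⟩ := Set.ncard_eq_one.1 ((T.leaf _).1 ⟨i, rfl⟩)
  exact (hc.le ha).trans (hc.le hb).symm

noncomputable def κ (A B : Finset (Fin n)) (i : Fin n) : Fin n ⊕ Bool :=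
  if i ∈ A then .inr true else if i ∈ B then .inr false else .inl i

lemma mem_parts {T : BTree n} {A B : Finset (Fin n)} (h : Sep T A B) :
    Setoid.ker (κ A B) ∈ T.parts := by
  obtain ⟨D, h1, h2, h3⟩ := h
  let D' := D ∪ {e | ∃ i ∉ A ∪ B, T.lab i ∈ e}
  have key : ∀ i ∈ A ∪ B, ∀ j ∈ A ∪ B, (T.G.deleteEdges D).Reachable (T.lab i) (T.lab j) →
      (T.G.deleteEdges D').Reachable (T.lab i) (T.lab j) := fun i hi j hj h => by
    obtain ⟨c, -, h4, h5⟩ := reach_ind (P := fun b => ∃ c, (∀ l ∉ A ∪ B, T.lab l ≠ c) ∧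
      (T.G.deleteEdges D').Reachable (T.lab i) c ∧ (b = c ∨ ∃ l ∉ A ∪ B, T.lab l = b ∧ T.G.Adj b c))
      ⟨_, fun l hl h => hl (T.inj h ▸ hi), .rfl, .inl rfl⟩ (by
        rintro b d ⟨c, h4, h5, rfl | ⟨l, hl, rfl, h6⟩⟩ h7
        · by_cases h8 : ∃ l ∉ A ∪ B, T.lab l = d
          · exact ⟨b, h4, h5, .inr (h8.imp fun l h => ⟨h.1, h.2, (deleteEdges_adj.1 h7).1.symm⟩)⟩
          refine ⟨d, fun l hl h => h8 ⟨l, hl, h⟩, h5.trans (Adj.reachable (deleteEdges_adj.2
            ⟨(deleteEdges_adj.1 h7).1, ?_⟩)), .inl rfl⟩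
          rintro (h9 | ⟨l, hl, h9⟩)
          · exact (deleteEdges_adj.1 h7).2 h9
          · exact (Sym2.mem_iff.1 h9).elim (h4 l hl) fun h => h8 ⟨l, hl, h⟩
        · exact ⟨c, h4, h5, .inl (uniq T l (deleteEdges_adj.1 h7).1 h6)⟩) h
    rcases h5 with rfl | ⟨l, hl, h5, -⟩
    · exact h4
    · exact absurd (T.inj h5 ▸ hj) hl
  have iso : ∀ i j, (T.G.deleteEdges D').Reachable (T.lab i) (T.lab j) → i ∉ A ∪ B → i = j :=
    fun i j h hi => T.inj (reach_ind (P := fun b => T.lab i = b) rfl (by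
      rintro _ b rfl h4
      exact absurd (.inr ⟨i, hi, by simp⟩) (deleteEdges_adj.1 h4).2) h)
  refine ⟨D', fun i j => ⟨fun h => ?_, fun h => ?_⟩⟩
  · simp only [Setoid.ker_def, κ] at h
    split_ifs at h with a1 a2 a3 a4 a5 a6 <;> simp only [reduceCtorEq, Sum.inr.injEq, Sum.inl.injEq] at h
    · exact key i (by simp [*]) j (by simp [*]) (h1 i a1 j a2)
    · exact key i (by simp [*]) j (by simp [*]) (h2 i a4 j a6)
    · rw [h]
  · have h4 := h.mono (deleteEdges_anti Set.subset_union_left)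
    have := h3 i; have := h3 j; have := h4.symm; have := iso i j h; have := iso j i h.symm
    simp only [Setoid.ker_def, κ, mem_union] at *
    grind

lemma sep_empty (T : BTree n) (A : Finset (Fin n)) : Sep T A ∅ :=
  ⟨∅, fun a _ b _ => by simpa using T.tree.1.1 _ _, by simp, by simp⟩

lemma split (T : BTree n) (A B : Finset (Fin n)) (hA : 4 ≤ A.card) : ∃ A' ⊆ A, ∃ B' ⊆ B,
    A.card ≤ 3 * A'.card ∧ B.card ≤ 3 * B'.card ∧ Sep T A' B' := by
  have := T.fin
  let R : T.V → T.V → Set T.V := fun u v => {w | (T.G.deleteEdges {s(u, v)}).Reachable v w}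
  let w : T.V → T.V → Finset (Fin n) := fun u v => A.filter fun i => T.lab i ∈ R u v
  have br : ∀ u v, T.G.Adj u v → u ∉ R u v := fun u v h h1 =>
    isBridge_iff.1 (isAcyclic_iff_forall_adj_isBridge.1 T.tree.2 h) h1.symm
  have cov : ∀ u v x, x ∈ R u v ∨ x ∈ R v u := fun u v x =>
    reach_ind (P := fun x => x ∈ R u v ∨ x ∈ R v u) (.inl .rfl) (fun a b h h1 => by
      by_cases h2 : s(a, b) = s(u, v)
      · rcases Sym2.eq_iff.1 h2 with ⟨-, rfl⟩ | ⟨-, rfl⟩
        exacts [.inl .rfl, .inr .rfl]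
      · exact h.imp (·.trans (Adj.reachable (deleteEdges_adj.2 ⟨h1, h2⟩))) (·.trans
          (Adj.reachable (deleteEdges_adj.2 ⟨h1, Sym2.eq_swap ▸ h2⟩)))) (T.tree.1.1 v x)
  obtain ⟨i, hi⟩ : A.Nonempty := card_pos.1 (by omega)
  obtain ⟨c, hc⟩ := Set.ncard_eq_one.1 ((T.leaf _).1 ⟨i, rfl⟩)
  have lf : ∀ u j, T.G.Adj u (T.lab j) → ∀ x ∈ R u (T.lab j), T.lab j = x := fun u j h x hx =>
    reach_ind (P := fun b => T.lab j = b) rfl (by
      rintro _ b rfl h4
      rw [deleteEdges_adj, uniq T j h4.1 h.symm] at h4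
      exact absurd Sym2.eq_swap h4.2) hx
  obtain ⟨⟨u, v⟩, ⟨h1, h2⟩, h3⟩ := Set.exists_min_image {p : T.V × T.V | T.G.Adj p.1 p.2 ∧
    2 * A.card < 3 * (w p.1 p.2).card} (fun p => (R p.1 p.2).ncard) (Set.toFinite _)
    ⟨(T.lab i, c), hc.ge rfl, by
      have := card_le_card (show A.erase i ⊆ w (T.lab i) c from fun j hj => mem_filter.2
        ⟨mem_of_mem_erase hj, (cov _ _ _).resolve_right fun h => ne_of_mem_erase hj
          (T.inj (lf c i (Adj.symm (hc.ge rfl)) _ h)).symm⟩)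
      rw [card_erase_of_mem hi] at this
      simp only; omega⟩
  dsimp only at h1 h2 h3
  have h4 : v ∉ Set.range T.lab := by
    rintro ⟨j, rfl⟩
    have := card_le_card (show w u (T.lab j) ⊆ {j} from fun l hl =>
      mem_singleton.2 (T.inj (lf u j h1 _ (mem_filter.1 hl).2)).symm)
    rw [card_singleton] at this; omega
  obtain ⟨x, hx, h5⟩ : ∃ x ∈ T.G.neighborSet v \ {u}, A.card < 3 * (w v x).card := by
    obtain ⟨x, y, -, h5⟩ := Set.ncard_eq_two.1 (show (T.G.neighborSet v \ {u}).ncard = 2 by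
      rw [Set.ncard_diff_singleton_of_mem (s := T.G.neighborSet v) h1.symm, (T.deg v).resolve_left
        fun h => h4 ((T.leaf v).2 h)])
    have h6 : w u v ⊆ w v x ∪ w v y := fun l hl => by
      have := reach_ind (P := fun b => b = v ∨ b ∈ R v x ∨ b ∈ R v y) (.inl rfl) (by
        rintro a b h h7
        rw [deleteEdges_adj] at h7
        by_cases h8 : b = v
        · exact .inl h8
        by_cases h9 : a = v
        · rcases h5.le ⟨h9 ▸ h7.1, fun h => h7.2 (by rw [h9, h, Sym2.eq_swap]; rfl)⟩ with rfl | rfl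
          exacts [.inr (.inl .rfl), .inr (.inr .rfl)]
        · exact .inr ((h.resolve_left h9).imp
            (·.trans (Adj.reachable (deleteEdges_adj.2 ⟨h7.1, by simp [*]⟩)))
            (·.trans (Adj.reachable (deleteEdges_adj.2 ⟨h7.1, by simp [*]⟩))))) (mem_filter.1 hl).2
      simpa [w, (mem_filter.1 hl).1, show T.lab l ≠ v from fun h => h4 ⟨l, h⟩] using this
    have := (card_le_card h6).trans (card_union_le _ _)
    by_cases h : A.card < 3 * (w v x).card
    · exact ⟨x, h5.ge (by simp), h⟩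
    · exact ⟨y, h5.ge (by simp), by omega⟩
  have h6 : 3 * (w v x).card ≤ 2 * A.card := le_of_not_gt fun h => (h3 (v, x) ⟨hx.1, h⟩).not_gt
    (Set.ncard_lt_ncard ⟨fun z hz => (reach_ind (P := fun b => b ∈ R v x ∧ b ∈ R u v) ⟨.rfl,
      Adj.reachable (deleteEdges_adj.2 ⟨hx.1, by simpa [h1.ne'] using hx.2⟩)⟩ (fun a b h h7 => by
        have h8 := h.1.trans h7.reachable
        refine ⟨h8, h.2.trans (Adj.reachable (deleteEdges_adj.2 ⟨(deleteEdges_adj.1 h7).1, ?_⟩))⟩
        intro h9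
        rcases Sym2.eq_iff.1 h9 with ⟨-, rfl⟩ | ⟨rfl, -⟩
        exacts [br _ _ hx.1 h8, br _ _ hx.1 h.1]) hz).2, fun h => br v x hx.1 (h .rfl)⟩)
  have h7 : ∀ C : Finset (Fin n), C.card ≤ (C.filter fun i => T.lab i ∈ R v x).card +
      (C.filter fun i => T.lab i ∈ R x v).card := fun C => (card_le_card fun l hl => by
    simpa [hl] using cov v x (T.lab l)).trans (card_union_le _ _)
  have h8 : ∀ a b, T.G.Adj a b → Sep T (w a b) (B.filter fun i => T.lab i ∈ R b a) :=
    fun a b h => ⟨{s(a, b)}, fun i hi j hj => (mem_filter.1 hi).2.symm.trans (mem_filter.1 hj).2,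
      fun i hi j hj => Sym2.eq_swap ▸ (mem_filter.1 hi).2.symm.trans (mem_filter.1 hj).2,
      fun i hi j hj h1 => br a b h (((mem_filter.1 hi).2.trans h1).trans
        (Sym2.eq_swap ▸ (mem_filter.1 hj).2.symm))⟩
  have h9 : A.card ≤ (w v x).card + (w x v).card := h7 A
  have := h7 B
  by_cases h : B.card ≤ 3 * (B.filter fun i => T.lab i ∈ R x v).card
  · exact ⟨_, filter_subset _ _, _, filter_subset _ _, h5.le, h, h8 v x hx.1⟩
  · exact ⟨w x v, filter_subset _ _, _, filter_subset _ _, by omega, by omega, h8 x v hx.1.symm⟩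

lemma many {t : ℕ} (T : Fin t → BTree n) (I : Finset (Fin t)) : 4 * 3 ^ I.card ≤ n →
    ∃ A B : Finset (Fin n), n ≤ 3 ^ I.card * A.card ∧ n ≤ 3 ^ I.card * B.card ∧
      ∀ i ∈ I, Sep (T i) A B := by
  induction I using Finset.induction_on with
  | empty => exact fun _ => ⟨univ, univ, by simp, by simp, by simp⟩
  | insert i I hi ih =>
    rw [card_insert_of_notMem hi, pow_succ]
    intro h
    obtain ⟨A, B, h1, h2, h3⟩ := ih (by omega)
    obtain ⟨A', hA, B', hB, h4, h5, h6⟩ := split (T i) A B (le_of_mul_le_mul_left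
      (a := 3 ^ I.card) (by omega) (by positivity))
    refine ⟨A', B', h1.trans (mul_assoc _ 3 _ ▸ Nat.mul_le_mul_left _ h4),
      h2.trans (mul_assoc _ 3 _ ▸ Nat.mul_le_mul_left _ h5), fun j hj => ?_⟩
    rcases mem_insert.1 hj with rfl | hj
    exacts [h6, (h3 j hj).mono hA hB]

lemma classes (A B : Finset (Fin n)) (U : Finset Bool) (h1 : true ∈ U ↔ A.Nonempty)
    (h2 : false ∈ U ↔ (B \ A).Nonempty) :
    Nat.card (Quotient (Setoid.ker (κ A B))) = n - (A ∪ B).card + U.card := by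
  rw [Nat.card_congr (Setoid.quotientKerEquivRange _), show Set.range (κ A B) =
    ((A ∪ B)ᶜ.disjSum U : Finset _) from ?_]
  · simp [card_compl, -compl_union]
  ext (x | _ | _) <;> simp only [Set.mem_range, κ, mem_coe, inl_mem_disjSum, inr_mem_disjSum, h1,
    h2, Finset.Nonempty, mem_compl, mem_union, Finset.mem_sdiff] <;> grind

theorem result : ¬ ∃ t ≥ 2, ∃ f : ℕ → ℕ, (fun n => (f n : ℝ)) =o[atTop] (fun n => (n : ℝ)) ∧
    ∀ n k, 1 ≤ k → k + f n < n → s t n k = n.choose (k - 1) := by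
  rintro ⟨t, ht, f, hf, h⟩
  obtain ⟨n, h1, h2⟩ := ((hf.def (c := (2 * 3 ^ t : ℝ)⁻¹) (by positivity)).and
    (eventually_ge_atTop (4 * 3 ^ t))).exists
  have h3 : 2 * f n ≤ n / 3 ^ t := (Nat.le_div_iff_mul_le (by positivity)).2 (by
    rw [Real.norm_natCast, Real.norm_natCast, le_inv_mul_iff₀ (by positivity)] at h1
    exact_mod_cast (by linarith : (2 * f n * 3 ^ t : ℝ) ≤ n))
  have h4 : 4 ≤ n / 3 ^ t := (Nat.le_div_iff_mul_le (by positivity)).2 h2
  have h5 : n / 3 ^ t < n := Nat.div_lt_self (Nat.pos_of_ne_zero fun h => by simp [h] at h4) (one_lt_pow₀ (by simp) (by omega))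
  have h6 := h n (n - n / 3 ^ t) (by omega) (by omega)
  obtain ⟨T, hT⟩ := Nat.sInf_mem (Nat.nonempty_of_pos_sInf (h6.ge.trans_lt'
    (Nat.choose_pos (by omega))))
  obtain ⟨A, B, a1, a2, a3⟩ := many T univ (by simpa)
  rw [card_fin] at a1 a2
  obtain ⟨A', hA, b1⟩ := exists_subset_card_eq (Nat.div_le_of_le_mul a1)
  obtain ⟨B', hB, b2⟩ := exists_subset_card_eq ((show 2 ≤ n / 3 ^ t by omega).trans
    (Nat.div_le_of_le_mul a2))
  generalize n / 3 ^ t = m at *
  have hd : Disjoint B' A' := disjoint_left.2 fun x h1 h2 =>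
    (a3 ⟨0, by omega⟩ (mem_univ _)).choose_spec.2.2 x (hA h2) x (hB h1) .rfl
  have : Finite (Setoid (Fin n)) := .of_injective (fun r => r.r) fun _ _ h => Setoid.ext fun a b =>
    iff_of_eq (congrFun₂ h a b)
  have h7 := Set.ncard_le_ncard (show ((insert (Setoid.ker (κ A' B')) ((powersetCard (m + 1) univ).image
    fun C => Setoid.ker (κ C ∅)) : Finset (Setoid (Fin n))) : Set _) ⊆ {r : Setoid (Fin n) |
      Nat.card (Quotient r) = n - m ∧ ∀ i, r ∈ (T i).parts} from fun r hr => by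
      rcases mem_insert.1 hr with rfl | hr
      · refine ⟨?_, fun i => mem_parts ((a3 i (mem_univ _)).mono hA hB)⟩
        have := card_le_univ (A' ∪ B')
        rw [classes _ _ univ (by simpa using card_pos.1 (by omega)) (by
          simpa [hd.sdiff_eq_left] using card_pos.1 (by omega))]
        rw [card_union_of_disjoint hd.symm] at *
        simp at this ⊢; omega
      · obtain ⟨C, hC, rfl⟩ := mem_image.1 hr
        have := (mem_powersetCard.1 hC).2
        refine ⟨?_, fun i => mem_parts (sep_empty _ _)⟩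
        rw [classes _ _ {true} (by simpa using card_pos.1 (by omega)) (by simp)]
        simp; omega)
  have key : ∀ C : Finset (Fin n), ∀ x y, Setoid.ker (κ C ∅) x y ↔ x = y ∨ (x ∈ C ∧ y ∈ C) :=
    fun C x y => by simp only [Setoid.ker_def, κ]; grind
  rw [← hT, show sInf _ = _ from h6, Set.ncard_coe_finset, card_insert_of_notMem, card_image_of_injOn,
    card_powersetCard, card_fin, Nat.choose_symm_of_eq_add (b := n - m - 1) (by omega)] at h7
  · omega
  · suffices ∀ C ∈ powersetCard (m + 1) (univ : Finset (Fin n)), ∀ C',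
        Setoid.ker (κ C ∅) = Setoid.ker (κ C' ∅) → C ⊆ C' from
      fun C hC C' hC' h => subset_antisymm (this C hC C' h) (this C' hC' C h.symm)
    intro C hC C' h x hx
    obtain ⟨y, hy, h8⟩ := exists_mem_ne (show 1 < C.card by
      have := (mem_powersetCard.1 hC).2; omega) x
    exact (((key C' y x).1 (h ▸ (key C y x).2 (.inr ⟨hy, hx⟩))).resolve_left h8).2
  · intro h
    obtain ⟨C, -, h⟩ := mem_image.1 h
    obtain ⟨x, hx, y, hy, h8⟩ := one_lt_card.1 (show 1 < A'.card by omega)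
    obtain ⟨z, hz, w, hw, h9⟩ := one_lt_card.1 (show 1 < B'.card by omega)
    have c1 := disjoint_left.1 hd hz
    have c2 := disjoint_left.1 hd hw
    have c3 := ((key C x y).1 (by rw [h]; simp [Setoid.ker_def, κ, *])).resolve_left h8
    have c4 := ((key C z w).1 (by rw [h]; simp [Setoid.ker_def, κ, *])).resolve_left h9
    have c5 := (key C x z).2 (.inr ⟨c3.1, c4.1⟩)
    rw [h] at c5
    simp [Setoid.ker_def, κ, *] at c5

end Pool.Agent.Results.MP_8ae77a_co.Excess
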